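import Mathlib

/-!
# Distance preserving maps of subsets of a Euclidean space extend to isometries of the space
-/

set_option autoImplicit false

namespace Pool.Agent.H71.Disc3

/-- Every distance preserving map defined on a subset of a finite dimensional Euclidean space
is the restriction of an isometry of the space. -/
theorem exists_extension {V : Type*} [NormedAddCommGroup V] [InnerProductSpace ℝ V]
    [FiniteDimensional ℝ V] (A : Set V) (f : V → V)
    (hf : ∀ x ∈ A, ∀ y ∈ A, dist (f x) (f y) = dist x y) :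
    ∃ φ : V ≃ᵢ V, ∀ x ∈ A, φ x = f x := by
  classical
  rcases A.eq_empty_or_nonempty with rfl | ⟨a, ha⟩
  · exact ⟨IsometryEquiv.refl V, by simp⟩
  have hinner : ∀ x ∈ A, ∀ y ∈ A,
      inner ℝ (f x - f a) (f y - f a) = inner ℝ (x - a) (y - a) := by
    intro x hx y hy
    have h1 : ‖f x - f a‖ = ‖x - a‖ := by simpa [dist_eq_norm] using hf x hx a ha
    have h2 : ‖f y - f a‖ = ‖y - a‖ := by simpa [dist_eq_norm] using hf y hy a ha
    have h3 : ‖(f x - f a) - (f y - f a)‖ = ‖(x - a) - (y - a)‖ := by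
      simpa [dist_eq_norm] using hf x hx y hy
    rw [real_inner_eq_norm_mul_self_add_norm_mul_self_sub_norm_sub_mul_self_div_two,
      real_inner_eq_norm_mul_self_add_norm_mul_self_sub_norm_sub_mul_self_div_two, h1, h2, h3]
  let T : (A →₀ ℝ) →ₗ[ℝ] V := Finsupp.linearCombination ℝ (fun x : A => (x : V) - a)
  let T' : (A →₀ ℝ) →ₗ[ℝ] V := Finsupp.linearCombination ℝ (fun x : A => f x - f a)
  have hinn : ∀ c d, inner ℝ (T' c) (T' d) = inner ℝ (T c) (T d) := by
    intro c d
    simp only [T, T', Finsupp.linearCombination_apply, Finsupp.sum, inner_sum, sum_inner,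
      real_inner_smul_left, real_inner_smul_right]
    refine Finset.sum_congr rfl fun i _ => Finset.sum_congr rfl fun j _ => ?_
    rw [hinner _ (Subtype.coe_prop _) _ (Subtype.coe_prop _)]
  have hnorm : ∀ c, ‖T' c‖ = ‖T c‖ := by
    intro c
    rw [← sq_eq_sq₀ (norm_nonneg _) (norm_nonneg _), ← real_inner_self_eq_norm_sq,
      ← real_inner_self_eq_norm_sq, hinn]
  have hker : LinearMap.ker T ≤ LinearMap.ker T' := by
    intro c hc
    rw [LinearMap.mem_ker] at *
    rw [← norm_eq_zero, hnorm, hc, norm_zero]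
  let L0 : LinearMap.range T →ₗ[ℝ] V :=
    ((LinearMap.ker T).liftQ T' hker) ∘ₗ (T.quotKerEquivRange.symm : LinearMap.range T →ₗ[ℝ] _)
  have hL0 : ∀ c, L0 ⟨T c, LinearMap.mem_range_self T c⟩ = T' c := by
    intro c
    show (LinearMap.ker T).liftQ T' hker (T.quotKerEquivRange.symm ⟨T c, _⟩) = T' c
    rw [LinearMap.quotKerEquivRange_symm_apply_image]
    simp
  let L : LinearMap.range T →ₗᵢ[ℝ] V := ⟨L0, by
    rintro ⟨_, c, rfl⟩
    rw [hL0]
    exact hnorm c⟩
  have hL : ∀ c, L ⟨T c, LinearMap.mem_range_self T c⟩ = T' c := hL0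
  obtain ⟨N, hN⟩ : ∃ N : V ≃ₗᵢ[ℝ] V, ∀ c, N (T c) = T' c := by
    refine ⟨L.extend.toLinearIsometryEquiv rfl, fun c => ?_⟩
    have h1 := LinearIsometry.extend_apply L ⟨T c, LinearMap.mem_range_self T c⟩
    rw [hL] at h1
    exact h1
  refine ⟨(IsometryEquiv.subRight a).trans (N.toIsometryEquiv.trans (IsometryEquiv.addRight (f a))),
    fun x hx => ?_⟩
  have h1 : T (Finsupp.single ⟨x, hx⟩ 1) = x - a := by
    simp [T, Finsupp.linearCombination_single]
  have h2 : T' (Finsupp.single ⟨x, hx⟩ 1) = f x - f a := by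
    simp [T', Finsupp.linearCombination_single]
  have h3 := hN (Finsupp.single ⟨x, hx⟩ 1)
  rw [h1, h2] at h3
  have h4 : ((IsometryEquiv.subRight a).trans
      (N.toIsometryEquiv.trans (IsometryEquiv.addRight (f a)))) x = N (x - a) + f a := rfl
  rw [h4, h3]
  abel

end Pool.Agent.H71.Disc3
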